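import Pool.Agent.Q68.OM.Cheb
import Pool.Agent.Q68.OM.Dyn

/-!
# Pointwise divergence of ergodic averages along `Ω(m² + n²)`
-/

set_option autoImplicit false

open MeasureTheory Filter Topology

namespace Pool.Agent.Results.MP_696bea_an.OmegaSumOfSquares

/-- The average over `1 ≤ m, n ≤ N` of `1_A (T^[Ω(m² + n²)] x)`. -/
noncomputable def avg {X : Type*} (T : X → X) (A : Set X) (x : X) (N : ℕ) : ℝ :=
  (∑ m ∈ Finset.Icc 1 N, ∑ n ∈ Finset.Icc 1 N,
    A.indicator (fun _ => (1 : ℝ)) (T^[ArithmeticFunction.cardFactors (m ^ 2 + n ^ 2)] x)) /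
      (N : ℝ) ^ 2

/-- The set `A` witnesses divergence at the point `x`. -/
def Diverges {X : Type*} (T : X → X) (A : Set X) (x : X) : Prop :=
  limsup (fun N : ℕ => avg T A x N) atTop = 1 ∧ liminf (fun N : ℕ => avg T A x N) atTop = 0

section aux

variable {X : Type*} (T : X → X) (A : Set X) (x : X)

theorem avg_nonneg (N : ℕ) : 0 ≤ avg T A x N := by
  unfold avg
  refine div_nonneg (Finset.sum_nonneg fun m _ => Finset.sum_nonneg fun n _ => ?_) (by positivity)
  exact Set.indicator_nonneg (fun _ _ => zero_le_one) _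

theorem ind_le (x : X) : A.indicator (fun _ => (1 : ℝ)) x ≤ 1 :=
  Set.indicator_le_self' (fun _ _ => zero_le_one) x

theorem avg_le_one (N : ℕ) : avg T A x N ≤ 1 := by
  unfold avg
  refine div_le_one_of_le₀ ?_ (by positivity)
  calc _ ≤ ∑ m ∈ Finset.Icc 1 N, ∑ n ∈ Finset.Icc 1 N, (1 : ℝ) :=
        Finset.sum_le_sum fun m _ => Finset.sum_le_sum fun n _ => ind_le A _
    _ = _ := by
      simp only [Finset.sum_const, Nat.card_Icc, Nat.add_sub_cancel, nsmul_eq_mul]
      ring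

theorem limsup_one (a : ℕ → ℝ) (h0 : ∀ N, 0 ≤ a N) (h1 : ∀ N, a N ≤ 1)
    (h : ∀ ε : ℝ, 0 < ε → ∃ᶠ N in atTop, 1 - ε ≤ a N) : limsup a atTop = 1 := by
  apply le_antisymm
  · refine limsup_le_of_le ?_ (Eventually.of_forall h1)
    exact (isBoundedUnder_of ⟨0, h0⟩ : IsBoundedUnder (· ≥ ·) atTop a).isCoboundedUnder_le
  · refine le_of_forall_sub_le fun ε hε => ?_
    refine le_limsup_of_frequently_le (h ε hε) ?_
    exact isBoundedUnder_of ⟨1, h1⟩

theorem liminf_zero (a : ℕ → ℝ) (h0 : ∀ N, 0 ≤ a N) (h1 : ∀ N, a N ≤ 1)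
    (h : ∀ ε : ℝ, 0 < ε → ∃ᶠ N in atTop, a N ≤ ε) : liminf a atTop = 0 := by
  apply le_antisymm
  · refine le_of_forall_pos_le_add fun ε hε => ?_
    rw [zero_add]
    refine liminf_le_of_frequently_le (h ε hε) ?_
    exact isBoundedUnder_of ⟨0, h0⟩
  · refine le_liminf_of_le ?_ (Eventually.of_forall h0)
    exact (isBoundedUnder_of ⟨1, h1⟩ : IsBoundedUnder (· ≤ ·) atTop a).isCoboundedUnder_ge

theorem win_lim (j : ℕ) :
    Tendsto (fun L : ℕ => ((Pool.Agent.Q68.OM.win j (3 * L) : ℕ) : ℝ) / L) atTop (𝓝 0) := by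
  have h1 : Tendsto (fun L : ℕ => (3 : ℝ) / (L : ℝ)) atTop (𝓝 0) :=
    tendsto_const_div_atTop_nhds_zero_nat 3
  have h2 : Tendsto (fun L : ℕ => Real.sqrt ((3 : ℝ) / (L : ℝ))) atTop (𝓝 0) := by
    have := (Real.continuous_sqrt.tendsto 0).comp h1
    rwa [Real.sqrt_zero] at this
  have h3 : Tendsto (fun L : ℕ => 2 * (j : ℝ) * Real.sqrt ((3 : ℝ) / (L : ℝ)) +
      (2 * (j : ℝ) + 1) / (L : ℝ)) atTop (𝓝 0) := by
    have h4 := (h2.const_mul (2 * (j : ℝ))).add
      (tendsto_const_div_atTop_nhds_zero_nat (2 * (j : ℝ) + 1))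
    rwa [mul_zero, zero_add] at h4
  refine squeeze_zero' (Eventually.of_forall fun L => by positivity) ?_ h3
  filter_upwards [eventually_ge_atTop 1] with L hL
  have hL0 : (0 : ℝ) < L := by exact_mod_cast hL
  have h5 : (Nat.sqrt (3 * L) : ℝ) / L ≤ Real.sqrt ((3 : ℝ) / (L : ℝ)) := by
    apply Real.le_sqrt_of_sq_le
    have h6 : (Nat.sqrt (3 * L) : ℝ) ^ 2 ≤ 3 * L := by
      have := Nat.sqrt_le' (3 * L)
      exact_mod_cast this
    rw [div_pow, div_le_div_iff₀ (by positivity) hL0]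
    nlinarith
  have h7 : ((Pool.Agent.Q68.OM.win j (3 * L) : ℕ) : ℝ) / L =
      2 * (j : ℝ) * ((Nat.sqrt (3 * L) : ℝ) / L) + (2 * (j : ℝ) + 1) / L := by
    unfold Pool.Agent.Q68.OM.win
    push_cast
    ring
  rw [h7]
  have h8 : 2 * (j : ℝ) * ((Nat.sqrt (3 * L) : ℝ) / L) ≤
      2 * (j : ℝ) * Real.sqrt ((3 : ℝ) / (L : ℝ)) := mul_le_mul_of_nonneg_left h5 (by positivity)
  linarith

end aux

variable {X : Type*} [MeasurableSpace X] {μ : Measure X} [IsProbabilityMeasure μ] {T : X → X}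

theorem main (hT : Ergodic T μ)
    (hsmall : ∀ ε : ℝ, 0 < ε → ∃ B : Set X, MeasurableSet B ∧ 0 < μ.real B ∧ μ.real B < ε) :
    ∃ A : Set X, MeasurableSet A ∧ ∀ᵐ x ∂μ, Diverges T A x := by
  obtain ⟨A, hA, hx⟩ := Pool.Agent.Q68.OM.dyn hT hsmall Pool.Agent.Q68.OM.win
    (by
      intro j a b hab
      unfold Pool.Agent.Q68.OM.win
      have := Nat.sqrt_le_sqrt hab
      gcongr)
    win_lim
  refine ⟨A, hA, ?_⟩
  filter_upwards [hx] with x hx
  have key : ∀ j : ℕ, 1 ≤ j → (∃ L, j ≤ L ∧ ∀ k, L ≤ k + Pool.Agent.Q68.OM.win j L →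
      k ≤ L + Pool.Agent.Q68.OM.win j L → (T^[k] x ∈ A ↔ Even j)) →
      ∃ N, j ≤ N ∧ (Even j → 1 - 67 / (j : ℝ) ≤ avg T A x N) ∧
        (¬ Even j → avg T A x N ≤ 67 / (j : ℝ)) := by
    rintro j hj ⟨L, hjL, hk⟩
    obtain ⟨N, hLN, hbad⟩ := Pool.Agent.Q68.OM.concentration j L hj (hj.trans hjL)
    have hN1 : 1 ≤ N := by omega
    have hN0 : (0 : ℝ) < N := by exact_mod_cast hN1
    set bad : ℕ × ℕ → Prop := fun z : ℕ × ℕ =>
      ¬ (L ≤ ArithmeticFunction.cardFactors (z.2 ^ 2 + z.1 ^ 2) + Pool.Agent.Q68.OM.win j L ∧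
        ArithmeticFunction.cardFactors (z.2 ^ 2 + z.1 ^ 2) ≤ L + Pool.Agent.Q68.OM.win j L)
      with hbaddef
    have hIcc : Finset.Icc 1 N = Finset.Ioc 0 N := by
      ext i; simp only [Finset.mem_Icc, Finset.mem_Ioc]; omega
    have hsum : ∑ m ∈ Finset.Icc 1 N, ∑ n ∈ Finset.Icc 1 N,
        A.indicator (fun _ => (1 : ℝ)) (T^[ArithmeticFunction.cardFactors (m ^ 2 + n ^ 2)] x) =
        ∑ z ∈ Finset.Ioc 0 N ×ˢ Finset.Ioc 0 N,
        A.indicator (fun _ => (1 : ℝ)) (T^[ArithmeticFunction.cardFactors (z.2 ^ 2 + z.1 ^ 2)] x) := by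
      rw [hIcc, Finset.sum_product]
      exact Finset.sum_congr rfl fun m _ => Finset.sum_congr rfl fun n _ => by rw [add_comm]
    have hcardN : (((Finset.Ioc 0 N ×ˢ Finset.Ioc 0 N).card : ℕ) : ℝ) = (N : ℝ) ^ 2 := by
      rw [Finset.card_product, Nat.card_Ioc, Nat.sub_zero]
      push_cast
      ring
    refine ⟨N, hjL.trans hLN, ?_, ?_⟩
    · intro hev
      unfold avg
      rw [hsum, le_div_iff₀ (by positivity)]
      have h1 : ∀ z ∈ Finset.Ioc 0 N ×ˢ Finset.Ioc 0 N, 1 - (if bad z then (1 : ℝ) else 0) ≤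
          A.indicator (fun _ => (1 : ℝ))
            (T^[ArithmeticFunction.cardFactors (z.2 ^ 2 + z.1 ^ 2)] x) := by
        intro z _
        by_cases hz : bad z
        · rw [if_pos hz, sub_self]
          exact Set.indicator_nonneg (fun _ _ => zero_le_one) _
        · rw [if_neg hz, sub_zero]
          have hz' := not_not.1 hz
          rw [Set.indicator_of_mem ((hk _ hz'.1 hz'.2).2 hev)]
      refine le_trans ?_ (Finset.sum_le_sum h1)
      rw [Finset.sum_sub_distrib, Finset.sum_const, nsmul_eq_mul, hcardN]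
      have h2 : ∑ z ∈ Finset.Ioc 0 N ×ˢ Finset.Ioc 0 N, (if bad z then (1 : ℝ) else 0) =
          (((Finset.Ioc 0 N ×ˢ Finset.Ioc 0 N).filter bad).card : ℝ) := by
        rw [Finset.card_filter]; push_cast; rfl
      rw [h2]
      linarith
    · intro hodd
      unfold avg
      rw [hsum, div_le_iff₀ (by positivity)]
      have h1 : ∀ z ∈ Finset.Ioc 0 N ×ˢ Finset.Ioc 0 N,
          A.indicator (fun _ => (1 : ℝ))
            (T^[ArithmeticFunction.cardFactors (z.2 ^ 2 + z.1 ^ 2)] x) ≤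
            (if bad z then (1 : ℝ) else 0) := by
        intro z _
        by_cases hz : bad z
        · rw [if_pos hz]
          exact ind_le A _
        · rw [if_neg hz]
          have hz' := not_not.1 hz
          rw [Set.indicator_of_notMem (fun h => hodd ((hk _ hz'.1 hz'.2).1 h))]
      refine (Finset.sum_le_sum h1).trans ?_
      have h2 : ∑ z ∈ Finset.Ioc 0 N ×ˢ Finset.Ioc 0 N, (if bad z then (1 : ℝ) else 0) =
          (((Finset.Ioc 0 N ×ˢ Finset.Ioc 0 N).filter bad).card : ℝ) := by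
        rw [Finset.card_filter]; push_cast; rfl
      rw [h2]
      exact hbad
  rw [eventually_atTop] at hx
  obtain ⟨j0, hj0⟩ := hx
  have small : ∀ ε : ℝ, 0 < ε → ∀ N0 : ℕ, ∃ j : ℕ, 1 ≤ j ∧ j0 ≤ 2 * j ∧ N0 ≤ 2 * j ∧
      67 / ((2 * j : ℕ) : ℝ) ≤ ε ∧ 67 / ((2 * j + 1 : ℕ) : ℝ) ≤ ε := by
    intro ε hε N0
    obtain ⟨i, hi⟩ := exists_nat_gt (67 / ε)
    refine ⟨i + j0 + N0 + 1, by omega, by omega, by omega, ?_, ?_⟩
    · rw [div_le_iff₀ (by positivity)]
      rw [div_lt_iff₀ hε] at hi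
      push_cast
      nlinarith [Nat.cast_nonneg (α := ℝ) j0, Nat.cast_nonneg (α := ℝ) N0,
        Nat.cast_nonneg (α := ℝ) i]
    · rw [div_le_iff₀ (by positivity)]
      rw [div_lt_iff₀ hε] at hi
      push_cast
      nlinarith [Nat.cast_nonneg (α := ℝ) j0, Nat.cast_nonneg (α := ℝ) N0,
        Nat.cast_nonneg (α := ℝ) i]
  constructor
  · refine limsup_one _ (avg_nonneg T A x) (avg_le_one T A x) fun ε hε => ?_
    rw [frequently_atTop]
    intro N0
    obtain ⟨j, hj1, hj2, hj3, hj4, _⟩ := small ε hε N0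
    obtain ⟨N, hN1, hN2, _⟩ := key (2 * j) (by omega) (hj0 _ hj2)
    refine ⟨N, hj3.trans hN1, ?_⟩
    have := hN2 (even_two_mul j)
    linarith
  · refine liminf_zero _ (avg_nonneg T A x) (avg_le_one T A x) fun ε hε => ?_
    rw [frequently_atTop]
    intro N0
    obtain ⟨j, hj1, hj2, hj3, _, hj5⟩ := small ε hε N0
    obtain ⟨N, hN1, _, hN2⟩ := key (2 * j + 1) (by omega) (hj0 _ (by omega))
    refine ⟨N, by omega, ?_⟩
    have := hN2 (by simp)
    linarith

/-- In a space without atoms (measure-algebra sense) there are sets of arbitrarily small positive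
measure. -/
theorem small_of_nonatomic {X : Type*} [MeasurableSpace X] (μ : Measure X) [IsProbabilityMeasure μ]
    (h : ∀ B : Set X, MeasurableSet B → 0 < μ B →
      ∃ C : Set X, C ⊆ B ∧ MeasurableSet C ∧ 0 < μ C ∧ μ C < μ B)
    (ε : ℝ) (hε : 0 < ε) : ∃ B : Set X, MeasurableSet B ∧ 0 < μ.real B ∧ μ.real B < ε := by
  have key : ∀ n : ℕ, ∃ B : Set X, MeasurableSet B ∧ 0 < μ.real B ∧ μ.real B ≤ (1 / 2) ^ n := by
    intro n
    induction n with
    | zero =>
      exact ⟨Set.univ, MeasurableSet.univ, by simp, by simp⟩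
    | succ n ih =>
      obtain ⟨B, hB, hB0, hB1⟩ := ih
      have hBμ : 0 < μ B := by
        by_contra h0
        rw [not_lt, nonpos_iff_eq_zero] at h0
        rw [measureReal_def, h0] at hB0
        simp at hB0
      obtain ⟨C, hCB, hC, hC0, hC1⟩ := h B hB hBμ
      have hC0' : 0 < μ.real C := ENNReal.toReal_pos hC0.ne' (measure_ne_top μ C)
      have hC1' : μ.real C < μ.real B :=
        (ENNReal.toReal_lt_toReal (measure_ne_top μ C) (measure_ne_top μ B)).2 hC1
      have hdiff : μ.real (B \ C) = μ.real B - μ.real C := measureReal_sdiff hCB hC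
      have hpow : ((1 : ℝ) / 2) ^ (n + 1) = (1 / 2) ^ n / 2 := by rw [pow_succ]; ring
      rcases le_total (μ.real C) (μ.real B / 2) with h2 | h2
      · exact ⟨C, hC, hC0', by rw [hpow]; linarith⟩
      · exact ⟨B \ C, hB.diff hC, by rw [hdiff]; linarith, by rw [hdiff, hpow]; linarith⟩
  obtain ⟨n, hn⟩ := exists_pow_lt_of_lt_one hε (by norm_num : (1 : ℝ) / 2 < 1)
  obtain ⟨B, hB, hB0, hB1⟩ := key n
  exact ⟨B, hB, hB0, lt_of_le_of_lt hB1 hn⟩

/-- The countable-cocountable σ-algebra on the line. -/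
def ccSpace : MeasurableSpace ℝ where
  MeasurableSet' s := s.Countable ∨ sᶜ.Countable
  measurableSet_empty := Or.inl Set.countable_empty
  measurableSet_compl s hs := by
    rcases hs with h | h
    · right; rwa [compl_compl]
    · left; exact h
  measurableSet_iUnion f hf := by
    by_cases h : ∀ i, (f i).Countable
    · left; exact Set.countable_iUnion h
    · right
      push Not at h
      obtain ⟨i, hi⟩ := h
      have h2 := (hf i).resolve_left hi
      exact h2.mono (Set.compl_subset_compl.2 (Set.subset_iUnion f i))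

theorem ccSpace_le : ccSpace ≤ (inferInstance : MeasurableSpace ℝ) := by
  intro s hs
  rcases hs with h | h
  · exact h.measurableSet
  · exact h.measurableSet.of_compl

theorem not_diverges_id {X : Type*} (A : Set X) (x : X) : ¬ Diverges id A x := by
  rintro ⟨h1, h2⟩
  have h3 : Tendsto (fun N : ℕ => avg id A x N) atTop (𝓝 (A.indicator (fun _ => (1 : ℝ)) x)) := by
    refine tendsto_const_nhds.congr' ?_
    filter_upwards [eventually_ge_atTop 1] with N hN
    have hN0 : (0 : ℝ) < N := by exact_mod_cast hN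
    unfold avg
    simp only [Function.iterate_id, id, Finset.sum_const, Nat.card_Icc, Nat.add_sub_cancel,
      nsmul_eq_mul]
    field_simp
  rw [h3.limsup_eq] at h1
  rw [h3.liminf_eq] at h2
  rw [h1] at h2
  exact one_ne_zero h2

/-- Over a general σ-algebra, vanishing of the measure of every point is too weak. -/
theorem degenerate : ∃ (m : MeasurableSpace ℝ) (μ : @Measure ℝ m),
    @IsProbabilityMeasure ℝ m μ ∧ (∀ x, μ {x} = 0) ∧ @Ergodic ℝ m id μ := by
  have h0 : ∀ s : Set ℝ, s.Countable →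
      ((volume.restrict (Set.Icc (0 : ℝ) 1)).trim ccSpace_le) s = 0 := by
    intro s hs
    have h1 : MeasurableSet[ccSpace] s := Or.inl hs
    rw [trim_measurableSet_eq ccSpace_le h1]
    exact hs.measure_zero _
  have h1 : ((volume.restrict (Set.Icc (0 : ℝ) 1)).trim ccSpace_le) Set.univ = 1 := by
    rw [trim_measurableSet_eq ccSpace_le MeasurableSet.univ]
    simp
  refine ⟨ccSpace, (volume.restrict (Set.Icc (0 : ℝ) 1)).trim ccSpace_le, ⟨h1⟩,
    fun x => h0 _ (Set.countable_singleton x), ?_⟩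
  refine @Ergodic.mk ℝ ccSpace id _ (@MeasurePreserving.id ℝ ccSpace _)
    (@PreErgodic.mk ℝ ccSpace id _ ?_)
  intro s hs _
  rw [eventuallyConst_set]
  rcases hs with h | h
  · right
    exact compl_mem_ae_iff.2 (h0 _ h)
  · left
    exact mem_ae_iff.2 (h0 _ h)

/-- **Main theorem.**  The averages along `Ω(m² + n²)` of the indicator of a suitable measurable set
diverge, with limsup one and liminf zero, at almost every point, for every ergodic system without
atoms: (1) on a standard Borel space in which every point has measure zero; (2) on an arbitrary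
probability space whose measure algebra has no atoms.  (3) On arbitrary probability spaces it does
not suffice that every point has measure zero. -/
theorem result.{u} :
    (∀ (X : Type u) [MeasurableSpace X] [StandardBorelSpace X] (μ : Measure X)
      [IsProbabilityMeasure μ] (T : X → X), (∀ x, μ {x} = 0) → Ergodic T μ →
      ∃ A : Set X, MeasurableSet A ∧ ∀ᵐ x ∂μ, Diverges T A x) ∧
    (∀ (X : Type u) [MeasurableSpace X] (μ : Measure X) [IsProbabilityMeasure μ] (T : X → X),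
      (∀ B : Set X, MeasurableSet B → 0 < μ B →
        ∃ C : Set X, C ⊆ B ∧ MeasurableSet C ∧ 0 < μ C ∧ μ C < μ B) → Ergodic T μ →
      ∃ A : Set X, MeasurableSet A ∧ ∀ᵐ x ∂μ, Diverges T A x) ∧
    (∃ (X : Type) (m : MeasurableSpace X) (μ : @Measure X m) (T : X → X),
      @IsProbabilityMeasure X m μ ∧ (∀ x, μ {x} = 0) ∧ @Ergodic X m T μ ∧
      ∀ (A : Set X) (x : X), ¬ Diverges T A x) := by
  refine ⟨?_, ?_, ?_⟩
  · intro X _ _ μ _ T hμ hT
    have : NullSingletonClass μ := ⟨hμ⟩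
    exact main hT fun ε hε => Pool.Agent.Q68.OM.small_sets hε
  · intro X _ μ _ T hμ hT
    exact main hT fun ε hε => small_of_nonatomic μ hμ ε hε
  · obtain ⟨m, μ, h1, h2, h3⟩ := degenerate
    exact ⟨ℝ, m, μ, id, h1, h2, h3, not_diverges_id⟩

end Pool.Agent.Results.MP_696bea_an.OmegaSumOfSquares
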